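import Pool.Agent.Helper72.UGA.Defs

/-!
# Project UG, block A: the bad scales of the generic entropy decrement have bounded total weight
-/

set_option autoImplicit false

namespace UGA

open Finset MRP
open MRA (res MP seqP crt gibbs ent_cont MP_log MP_ne cheb seqP_ge seqP_div)
open MRU (US law EL ent US_pos US_eq law_nonneg ent_factor ent_le_card ent_nonneg chain ent_shift ent_res dv shift_abs
  EL_mul)

variable {α : Type} [Fintype α] [DecidableEq α]

theorem word_chain {β : Type} [Fintype β] [DecidableEq β] {X : ℕ} (hX : 1 ≤ X)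
    (c : ℕ → α) (y : ℕ → β) (k L : ℕ) :
    ent X (wd c (k * L)) ≤
      ent X y + ∑ i ∈ range k, (ent X (fun n => (wd c L (n + i * L), y n)) - ent X y) := by
  refine le_trans ?_ (chain hX (fun i n => wd c L (n + i * L)) y k)
  refine ent_factor hX _ _ ?_
  intro n m _ _ _ _ h
  have ha := congrArg Prod.fst h
  simp only at ha
  funext j
  have hj := j.2
  have hL : 0 < L := by
    rcases Nat.eq_zero_or_pos L with h0 | h0
    · have : k * L = 0 := by rw [h0, Nat.mul_zero]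
      omega
    · exact h0
  have hi : (j : ℕ) / L < k := Nat.div_lt_of_lt_mul (lt_of_lt_of_eq hj (Nat.mul_comm k L))
  have hr : (j : ℕ) % L < L := Nat.mod_lt _ hL
  have h1 := congrFun (congrFun ha ⟨(j : ℕ) / L, hi⟩) ⟨(j : ℕ) % L, hr⟩
  simp only [wd] at h1 ⊢
  have h2 : ∀ t : ℕ, t + (j : ℕ) / L * L + (j : ℕ) % L = t + (j : ℕ) := by
    intro t
    have := Nat.div_add_mod' (j : ℕ) L
    omega
  rw [h2, h2] at h1
  exact h1

theorem dstep (α : Type) [Fintype α] [DecidableEq α] (L M k : ℕ) [NeZero M] (η : ℝ) (hη : 0 < η) :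
    ∃ X0 : ℕ, ∀ X : ℕ, X0 ≤ X →
    ∀ c : ℕ → α, ent X (wd c (k * L)) ≤
      Real.log M + k * (ent X (fun n => (wd c L n, res M n)) - Real.log M) + η := by
  have hk : (0 : ℝ) < 2 * k + 1 := by positivity
  set e : ℝ := η / (2 * k + 1) with he
  have hepos : 0 < e := div_pos hη hk
  have hS := fun i : ℕ =>
    ent_shift (Fintype.card ((Fin L → α) × Fin M)) (i * L) e hepos
  choose F hF using hS
  obtain ⟨X1, hX1⟩ := ent_res M e hepos
  refine ⟨max 1 (max X1 ((range k).sup F)), ?_⟩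
  intro X hX c
  have hX' : 1 ≤ X := le_trans (le_max_left _ _) hX
  have hXr : X1 ≤ X := le_trans (le_trans (le_max_left _ _) (le_max_right _ _)) hX
  have hXs : (range k).sup F ≤ X :=
    le_trans (le_trans (le_max_right _ _) (le_max_right _ _)) hX
  have h1 := word_chain hX' c (res M) k L
  have h2 : ent X (res M) ≤ Real.log M := by
    have := ent_le_card hX' (res M)
    simpa using this
  have h3 := hX1 X hXr
  set E : ℝ := ent X (fun n => (wd c L n, res M n)) with hE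
  have h4 : ∀ i ∈ range k,
      ent X (fun n => (wd c L (n + i * L), res M n)) - ent X (res M) ≤
        E - Real.log M + 2 * e := by
    intro i hi
    have hFi : F i ≤ X := le_trans (Finset.le_sup hi) hXs
    have h5 := hF i X hFi ((Fin L → α) × Fin M) le_rfl
      (fun n => (wd c L n, res M n))
    have h6 : ent X (fun n => (wd c L (n + i * L), res M n)) ≤
        ent X (fun n => (wd c L (n + i * L), res M (n + i * L))) := by
      apply ent_factor hX'
      intro n m _ _ _ _ hnm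
      have ha := congrArg Prod.fst hnm
      have hb := congrArg Prod.snd hnm
      simp only at ha hb
      have hb' : (n + i * L) % M = (m + i * L) % M := by
        have := congrArg Fin.val hb
        simpa [res] using this
      have hb'' : n % M = m % M := Nat.ModEq.add_right_cancel' (i * L) hb'
      refine Prod.ext ha ?_
      simp only
      exact Fin.ext hb''
    have h7 := (abs_le.1 h5).2
    linarith
  have h8 := Finset.sum_le_sum h4
  rw [Finset.sum_const, card_range, nsmul_eq_mul] at h8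
  have h9 : (2 * (k : ℝ)) * e ≤ η := by
    have : (2 * (k : ℝ) + 1) * e = η := by
      rw [he]; field_simp
    nlinarith [hepos]
  have h10 : (k : ℝ) * (E - Real.log M + 2 * e) = k * (E - Real.log M) + 2 * k * e := by ring
  linarith

theorem dstep0 (α : Type) [Fintype α] [DecidableEq α] (L k : ℕ) (η : ℝ) (hη : 0 < η) :
    ∃ X0 : ℕ, ∀ X : ℕ, X0 ≤ X →
    ∀ c : ℕ → α, ent X (wd c (k * L)) ≤ k * ent X (wd c L) + η := by
  obtain ⟨X0, hX0⟩ := dstep α L 1 k η hη
  refine ⟨max 1 X0, fun X hX c => ?_⟩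
  have hX1 : 1 ≤ X := le_trans (le_max_left _ _) hX
  have h := hX0 X (le_trans (le_max_right _ _) hX) c
  have h2 : ent X (fun n => (wd c L n, res 1 n)) ≤ ent X (wd c L) := by
    refine ent_factor hX1 _ _ ?_
    intro n m _ _ _ _ hnm
    exact Prod.ext hnm (Subsingleton.elim _ _)
  simp only [Nat.cast_one, Real.log_one, sub_zero, zero_add] at h
  have h3 : (k : ℝ) * ent X (fun n => (wd c L n, res 1 n)) ≤ k * ent X (wd c L) :=
    mul_le_mul_of_nonneg_left h2 (Nat.cast_nonneg k)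
  linarith

theorem defect (α : Type) [Fintype α] [DecidableEq α] [Inhabited α] (w : ℕ) (ε : ℝ) (hε : 0 < ε)
    (P : ℕ) (hP : 1 ≤ P) : ∃ X0 : ℕ, ∀ X : ℕ, X0 ≤ X →
    ∀ (c : ℕ → α) (Φ : ℕ → (ℕ → α) → ℝ), (∀ p c, |Φ p c| ≤ 1) → Loc w Φ → ε * X < QAG Φ X P c →
      ε ^ 2 / 32 * ((dyP P).card : ℝ) ≤ ent X (wd c ((2 * w + 1) * P)) + Real.log (MP P) -
        ent X (fun n => (wd c ((2 * w + 1) * P) n, res (MP P) n)) := by
  refine ⟨max 1 ⌈16 * (P : ℝ) ^ 2 / ε⌉₊, ?_⟩
  intro X hX c Φ hΦ hloc hQ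
  have hX1 : 1 ≤ X := le_trans (le_max_left _ _) hX
  have hX2 : 16 * (P : ℝ) ^ 2 / ε ≤ X :=
    le_trans (Nat.le_ceil _) (by exact_mod_cast le_trans (le_max_right _ _) hX)
  have hXpos : (0 : ℝ) < X := by exact_mod_cast hX1
  have hlog' : 16 * (P : ℝ) ^ 2 ≤ ε * X := by
    rw [div_le_iff₀ hε] at hX2
    linarith
  obtain ⟨σ, hσ, hQσ⟩ := exists_sign Φ P X c
  set D : ℝ := ((dyP P).card : ℝ) with hD
  have hDpos : 0 < D := by
    by_contra hcon
    have hc0 : (dyP P).card = 0 := by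
      have h0 : (0 : ℝ) ≤ D := by rw [hD]; positivity
      have : D = 0 := le_antisymm (not_lt.1 hcon) h0
      rw [hD] at this
      exact_mod_cast this
    have hQ0 : QAG Φ X P c = 0 := by
      unfold QAG
      rw [hc0]
      simp
    rw [hQ0] at hQ
    have : 0 ≤ ε * X := mul_nonneg hε.le hXpos.le
    linarith
  set G : ℕ → ℝ := fun n => FFG Φ P σ (ext (wd c ((2 * w + 1) * P) n))
    ((res (MP P) n : Fin (MP P)) : ℕ) with hG
  set S : ℝ := ∑ n ∈ Icc 1 X, (1 : ℝ) * G n with hS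
  have hm : |QQG Φ X P σ c - S| ≤ 4 * (P : ℝ) ^ 2 := by
    have := meanQ Φ hΦ w hloc P X hP σ hσ c
    simpa [hS, hG, res] using this
  have hLSpos := US_pos hX1
  have hEL : EL X G = S / US X := rfl
  have hSabs : ε * X - 4 * (P : ℝ) ^ 2 ≤ |S| := by
    have h1 : |QQG Φ X P σ c| ≤ |QQG Φ X P σ c - S| + |S| := by
      have := abs_add_le (QQG Φ X P σ c - S) S
      simpa using this
    have h2 := le_abs_self (QQG Φ X P σ c)
    rw [hQσ] at h1 h2 hm
    linarith
  have hELabs : 3 * ε / 4 ≤ |EL X G| := by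
    rw [hEL, abs_div, abs_of_pos hLSpos, le_div_iff₀ hLSpos, US_eq]
    nlinarith
  have key : ∀ t : ℝ, t ^ 2 = (ε / 12 * D) ^ 2 → t * EL X G = ε / 12 * D * |EL X G| →
      ε ^ 2 / 32 * D ≤ ent X (wd c ((2 * w + 1) * P)) + Real.log (MP P) -
        ent X (fun n => (wd c ((2 * w + 1) * P) n, res (MP P) n)) := by
    intro t ht2 htE
    have hdv := dv hX1 (wd c ((2 * w + 1) * P)) (res (MP P))
      (fun a b => t * FFG Φ P σ (ext a) ((b : Fin (MP P)) : ℕ)) (Real.exp (9 / 2 * t ^ 2 / D))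
      (Real.exp_pos _) (fun a => hoeff_fin Φ hΦ P σ hσ (ext a) t)
    have h3 : EL X (fun n => t * FFG Φ P σ (ext (wd c ((2 * w + 1) * P) n))
        ((res (MP P) n : Fin (MP P)) : ℕ)) = t * EL X G := EL_mul X t G
    rw [h3, Real.log_exp, Fintype.card_fin, htE, ht2] at hdv
    have h4 : 9 / 2 * (ε / 12 * D) ^ 2 / D = ε ^ 2 / 32 * D := by
      field_simp
      ring
    rw [h4] at hdv
    have h5 : ε / 12 * D * (3 * ε / 4) ≤ ε / 12 * D * |EL X G| :=
      mul_le_mul_of_nonneg_left hELabs (by positivity)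
    nlinarith
  rcases le_total 0 (EL X G) with h | h
  · refine key (ε / 12 * D) rfl ?_
    rw [abs_of_nonneg h]
  · refine key (-(ε / 12 * D)) (by ring) ?_
    rw [abs_of_nonpos h]
    ring

theorem scale (α : Type) [Fintype α] [DecidableEq α] [Inhabited α] (w : ℕ) (ε : ℝ) (hε : 0 < ε)
    (P k : ℕ) (hP : 1 ≤ P) (hk : 1 ≤ k) (η : ℝ) (hη : 0 < η) :
    ∃ X0 : ℕ, ∀ X : ℕ, X0 ≤ X → ∀ (c : ℕ → α) (Φ : ℕ → (ℕ → α) → ℝ), (∀ p c, |Φ p c| ≤ 1) →
      Loc w Φ → ε * X < QAG Φ X P c →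
      ent X (wd c ((2 * w + 1) * (k * P))) / (((2 * w + 1) * (k * P) : ℕ) : ℝ) ≤
        ent X (wd c ((2 * w + 1) * P)) / (((2 * w + 1) * P : ℕ) : ℝ) -
          ε ^ 2 / 32 * (((dyP P).card : ℝ) / P) / (2 * w + 1) + 2 * Real.log 4 / k + η := by
  obtain ⟨X1, h1⟩ := dstep α ((2 * w + 1) * P) (MP P) k η hη
  obtain ⟨X2, h2⟩ := defect α w ε hε P hP
  refine ⟨max X1 X2, fun X hX c Φ hΦ hloc hQ => ?_⟩
  have a1 := h1 X (le_trans (le_max_left _ _) hX) c
  have a2 := h2 X (le_trans (le_max_right _ _) hX) c Φ hΦ hloc hQ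
  have a3 := MP_log P
  have e : k * ((2 * w + 1) * P) = (2 * w + 1) * (k * P) := by ring
  rw [e] at a1
  have hP' : (1 : ℝ) ≤ P := by exact_mod_cast hP
  have hk' : (1 : ℝ) ≤ k := by exact_mod_cast hk
  have hP0 : (0 : ℝ) < P := by linarith
  have hk0 : (0 : ℝ) < k := by linarith
  have hw0 : (0 : ℝ) ≤ w := Nat.cast_nonneg w
  have hlog : 0 < Real.log 4 := Real.log_pos (by norm_num)
  set W := ent X (wd c ((2 * w + 1) * (k * P))) with hW
  set V := ent X (wd c ((2 * w + 1) * P)) with hV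
  set VY := ent X (fun n => (wd c ((2 * w + 1) * P) n, res (MP P) n)) with hVY
  set D := ((dyP P).card : ℝ) with hD
  set LM := Real.log (MP P) with hLM
  have a4 : W ≤ 2 * P * Real.log 4 + k * (V - ε ^ 2 / 32 * D) + η := by
    have : (k : ℝ) * (VY - LM) ≤ k * (V - ε ^ 2 / 32 * D) :=
      mul_le_mul_of_nonneg_left (by linarith) hk0.le
    linarith
  push_cast
  have hww : (1 : ℝ) ≤ 2 * w + 1 := by linarith
  have hww0 : (0 : ℝ) < 2 * w + 1 := by linarith
  rw [div_le_iff₀ (by positivity)]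
  have e2 : (V / ((2 * (w : ℝ) + 1) * (P : ℝ)) - ε ^ 2 / 32 * (D / P) / (2 * w + 1) +
      2 * Real.log 4 / k + η) * ((2 * (w : ℝ) + 1) * ((k : ℝ) * P))
      = k * V - k * (ε ^ 2 / 32 * D) + (2 * w + 1) * (2 * P * Real.log 4) +
        (2 * w + 1) * (k * P) * η := by
    field_simp
  rw [e2]
  have h5 : 1 ≤ (k : ℝ) * P := by nlinarith
  have h5' : 1 ≤ (2 * (w : ℝ) + 1) * (k * P) := by nlinarith
  have h6 : η ≤ (2 * (w : ℝ) + 1) * (k * P) * η := by nlinarith
  have h7 : 0 ≤ 2 * P * Real.log 4 := by positivity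
  have h8 : 2 * P * Real.log 4 ≤ (2 * (w : ℝ) + 1) * (2 * P * Real.log 4) := by nlinarith
  linarith

theorem scale0 (α : Type) [Fintype α] [DecidableEq α] (w : ℕ) (P k : ℕ) (hP : 1 ≤ P) (hk : 1 ≤ k)
    (η : ℝ) (hη : 0 < η) :
    ∃ X0 : ℕ, ∀ X : ℕ, X0 ≤ X → ∀ c : ℕ → α,
      ent X (wd c ((2 * w + 1) * (k * P))) / (((2 * w + 1) * (k * P) : ℕ) : ℝ) ≤
        ent X (wd c ((2 * w + 1) * P)) / (((2 * w + 1) * P : ℕ) : ℝ) + η := by
  obtain ⟨X1, h1⟩ := dstep0 α ((2 * w + 1) * P) k η hη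
  refine ⟨X1, fun X hX c => ?_⟩
  have a1 := h1 X hX c
  have e : k * ((2 * w + 1) * P) = (2 * w + 1) * (k * P) := by ring
  rw [e] at a1
  have hP' : (1 : ℝ) ≤ P := by exact_mod_cast hP
  have hk' : (1 : ℝ) ≤ k := by exact_mod_cast hk
  have hP0 : (0 : ℝ) < P := by linarith
  have hk0 : (0 : ℝ) < k := by linarith
  have hw0 : (0 : ℝ) ≤ w := Nat.cast_nonneg w
  have hww : (1 : ℝ) ≤ 2 * w + 1 := by linarith
  have hww0 : (0 : ℝ) < 2 * w + 1 := by linarith
  set W := ent X (wd c ((2 * w + 1) * (k * P))) with hW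
  set V := ent X (wd c ((2 * w + 1) * P)) with hV
  push_cast
  rw [div_le_iff₀ (by positivity)]
  have e2 : (V / ((2 * (w : ℝ) + 1) * (P : ℝ)) + η) * ((2 * (w : ℝ) + 1) * ((k : ℝ) * P)) =
      k * V + (2 * w + 1) * (k * P) * η := by
    field_simp
  rw [e2]
  have h5 : 1 ≤ (k : ℝ) * P := by nlinarith
  have h5' : 1 ≤ (2 * (w : ℝ) + 1) * (k * P) := by nlinarith
  nlinarith

/-- **The bad scales have bounded total weight.** -/
theorem bad (α : Type) [Fintype α] [DecidableEq α] [Inhabited α] (w : ℕ) (ε : ℝ) (hε : 0 < ε) :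
    ∃ K C : ℝ, 0 < K ∧ 0 < C ∧ ∃ Pstar : ℕ, 3 ≤ Pstar ∧
    ∀ P0 : ℕ, Pstar ≤ P0 → ∀ I : ℕ, ∃ X0 : ℕ, ∀ X : ℕ, X0 ≤ X → ∀ (c : ℕ → α)
      (Φ : ℕ → (ℕ → α) → ℝ), (∀ p c, |Φ p c| ≤ 1) → Loc w Φ →
      ∑ i ∈ range I, (if ε * X < QAG Φ X (seqP K P0 i) c then 1 / Real.log (seqP K P0 i) else 0) ≤
        C := by
  classical
  obtain ⟨c0, hc0, Pstar, hP3, hcheb⟩ := cheb
  have hw0 : (0 : ℝ) ≤ w := Nat.cast_nonneg w
  have hww0 : (0 : ℝ) < 2 * w + 1 := by linarith
  set κ : ℝ := ε ^ 2 * c0 / (64 * (2 * w + 1)) with hκ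
  have hκ0 : 0 < κ := by positivity
  have hlog4 : 0 < Real.log 4 := Real.log_pos (by norm_num)
  set K : ℝ := 2 * Real.log 4 / κ with hK
  have hK0 : 0 < K := by positivity
  set A : ℝ := Real.log (Fintype.card α) with hA
  have hA0 : 0 ≤ A := by
    rw [hA]
    exact Real.log_nonneg (by exact_mod_cast Fintype.card_pos)
  refine ⟨K, (A + 1) / κ, hK0, by positivity, Pstar, hP3, fun P0 hP0 I => ?_⟩
  set Q : ℕ → ℕ := seqP K P0 with hQ
  have hQge : ∀ i, Pstar ≤ Q i := fun i => hP0.trans (seqP_ge K P0 i)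
  have hQ1 : ∀ i, 1 ≤ Q i := fun i => le_trans (by omega) (hQge i)
  have hL : ∀ i, 0 < Real.log (Q i) := by
    intro i
    apply Real.log_pos
    have : 3 ≤ Q i := hP3.trans (hQge i)
    have h2 : (3 : ℝ) ≤ (Q i : ℝ) := by exact_mod_cast this
    linarith
  set k : ℕ → ℕ := fun i => ⌈K * Real.log (Q i)⌉₊ + 2 with hk
  have hk1 : ∀ i, 1 ≤ k i := fun i => by simp only [hk]; omega
  have hstep : ∀ i, Q (i + 1) = k i * Q i := fun i => rfl
  set η : ℝ := 1 / ((I : ℝ) + 1) with hη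
  have hη0 : 0 < η := by positivity
  choose F1 hF1 using fun i => scale α w ε hε (Q i) (k i) (hQ1 i) (hk1 i) η hη0
  choose F0 hF0 using fun i => scale0 α w (Q i) (k i) (hQ1 i) (hk1 i) η hη0
  refine ⟨max 1 (max ((range I).sup F1) ((range I).sup F0)), fun X hX c Φ hΦ hloc => ?_⟩
  have hX1 : 1 ≤ X := le_trans (le_max_left _ _) hX
  have hXs1 : (range I).sup F1 ≤ X :=
    le_trans (le_trans (le_max_left _ _) (le_max_right _ _)) hX
  have hXs0 : (range I).sup F0 ≤ X :=
    le_trans (le_trans (le_max_right _ _) (le_max_right _ _)) hX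
  set h : ℕ → ℝ := fun i => ent X (wd c ((2 * w + 1) * Q i)) / (((2 * w + 1) * Q i : ℕ) : ℝ) with hh
  set ω : ℕ → ℝ := fun i => if ε * X < QAG Φ X (Q i) c then 1 / Real.log (Q i) else 0 with hω
  have hdec : ∀ i < I, h (i + 1) ≤ h i - κ * ω i + η := by
    intro i hi
    have hi1 : F1 i ≤ X := le_trans (Finset.le_sup (Finset.mem_range.2 hi)) hXs1
    have hi0 : F0 i ≤ X := le_trans (Finset.le_sup (Finset.mem_range.2 hi)) hXs0
    by_cases hb : ε * X < QAG Φ X (Q i) c
    · have a := hF1 i X hi1 c Φ hΦ hloc hb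
      have hw1 : ω i = 1 / Real.log (Q i) := by simp only [hω]; rw [if_pos hb]
      have b := hcheb (Q i) (hQge i)
      have hQpos : (0 : ℝ) < Q i := by exact_mod_cast (hQ1 i)
      have hLi := hL i
      have h1 : c0 / Real.log (Q i) ≤ ((dyP (Q i)).card : ℝ) / Q i := by
        rw [le_div_iff₀ hQpos]
        calc c0 / Real.log (Q i) * (Q i) = c0 * (Q i) / Real.log (Q i) := by ring
          _ ≤ _ := b
      have h2 : 2 * Real.log 4 / k i ≤ κ * (1 / Real.log (Q i)) := by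
        have hkpos : (0 : ℝ) < k i := by exact_mod_cast (hk1 i)
        rw [div_le_iff₀ hkpos]
        have h3 : K * Real.log (Q i) ≤ k i := by
          refine (Nat.le_ceil _).trans ?_
          exact_mod_cast (by simp only [hk]; omega : ⌈K * Real.log (Q i)⌉₊ ≤ k i)
        have h4 : κ * (1 / Real.log (Q i)) * (K * Real.log (Q i)) = 2 * Real.log 4 := by
          rw [hK]
          field_simp
        have h5 : κ * (1 / Real.log (Q i)) * (K * Real.log (Q i)) ≤
            κ * (1 / Real.log (Q i)) * k i :=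
          mul_le_mul_of_nonneg_left h3 (by positivity)
        linarith
      have h6 : ε ^ 2 / 32 * (c0 / Real.log (Q i)) / (2 * w + 1) = 2 * κ * (1 / Real.log (Q i)) := by
        rw [hκ]; field_simp; ring
      have h7 : ε ^ 2 / 32 * (c0 / Real.log (Q i)) / (2 * w + 1) ≤
          ε ^ 2 / 32 * (((dyP (Q i)).card : ℝ) / Q i) / (2 * w + 1) :=
        div_le_div_of_nonneg_right (mul_le_mul_of_nonneg_left h1 (by positivity)) hww0.le
      have hs : h (i + 1) = ent X (wd c ((2 * w + 1) * (k i * Q i))) /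
          (((2 * w + 1) * (k i * Q i) : ℕ) : ℝ) := by
        simp only [hh]
        rw [hstep i]
      rw [hs, hw1]
      have hi' : h i = ent X (wd c ((2 * w + 1) * Q i)) / (((2 * w + 1) * Q i : ℕ) : ℝ) := rfl
      rw [hi']
      linarith
    · have a := hF0 i X hi0 c
      have hw1 : ω i = 0 := by simp only [hω]; rw [if_neg hb]
      have hs : h (i + 1) = ent X (wd c ((2 * w + 1) * (k i * Q i))) /
          (((2 * w + 1) * (k i * Q i) : ℕ) : ℝ) := by
        simp only [hh]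
        rw [hstep i]
      rw [hs, hw1]
      have hi' : h i = ent X (wd c ((2 * w + 1) * Q i)) / (((2 * w + 1) * Q i : ℕ) : ℝ) := rfl
      rw [hi']
      linarith
  have htel : ∀ J ≤ I, h J ≤ h 0 - κ * (∑ i ∈ range J, ω i) + J * η := by
    intro J
    induction J with
    | zero => intro _; simp
    | succ J ih =>
      intro hJ
      have h1 := ih (by omega)
      have h2 := hdec J (by omega)
      rw [Finset.sum_range_succ]
      push_cast
      linarith
  have hI := htel I le_rfl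
  have hI0 : 0 ≤ h I := div_nonneg (ent_nonneg X _) (Nat.cast_nonneg _)
  have h00 : h 0 ≤ A := by
    have a := ent_le_card hX1 (wd c ((2 * w + 1) * Q 0))
    have hcard : Fintype.card (Fin ((2 * w + 1) * Q 0) → α) =
        Fintype.card α ^ ((2 * w + 1) * Q 0) := by simp
    rw [hcard] at a
    have hlogp : Real.log ((Fintype.card α ^ ((2 * w + 1) * Q 0) : ℕ) : ℝ) =
        (((2 * w + 1) * Q 0 : ℕ) : ℝ) * A := by
      rw [Nat.cast_pow, Real.log_pow]
    rw [hlogp] at a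
    have hpos : (0 : ℝ) < (((2 * w + 1) * Q 0 : ℕ) : ℝ) := by
      exact_mod_cast Nat.mul_pos (by omega) (hQ1 0)
    simp only [hh]
    rw [div_le_iff₀ hpos]
    linarith
  have hIη : (I : ℝ) * η ≤ 1 := by
    rw [hη, mul_one_div, div_le_one (by positivity)]
    linarith
  rw [le_div_iff₀ hκ0]
  have hsum : ∑ i ∈ range I, (if ε * X < QAG Φ X (Q i) c then 1 / Real.log (Q i) else 0) =
      ∑ i ∈ range I, ω i := rfl
  rw [hsum]
  linarith

end UGA
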