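import Pool.Agent.Helper11.MRU.Bad

/-!
# Project UG, block A: the entropy decrement for arbitrary local test functions (definitions)

Uniform weights on `[1, X]`, a sequence `c : ℕ → α` with values in a finite set, and for every prime `p` a test function
`Φ p c ∈ [-1, 1]` which depends on `c 0, ..., c (w p - 1)` only. Words have length `(2 w + 1) P` at the scale `P`.
-/

set_option autoImplicit false

namespace UGA

open Finset MRP
open MRA (res MP seqP crt gibbs ent_cont MP_log MP_ne cheb seqP_ge seqP_div)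
open MRU (US law EL ent US_pos US_eq law_nonneg ent_factor ent_le_card ent_nonneg chain ent_shift ent_res dv shift_abs
  EL_mul)

variable {α : Type}

/-- The word of length `L` at `n`. -/
def wd (c : ℕ → α) (L n : ℕ) : Fin L → α := fun j => c (n + (j : ℕ))

/-- A word as a sequence. -/
def ext [Inhabited α] {L : ℕ} (v : Fin L → α) (i : ℕ) : α := if h : i < L then v ⟨i, h⟩ else default

/-- `Φ p` depends on the first `w p` letters only. -/
def Loc (w : ℕ) (Φ : ℕ → (ℕ → α) → ℝ) : Prop :=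
  ∀ (p : ℕ) (c c' : ℕ → α), (∀ i, i < w * p → c i = c' i) → Φ p c = Φ p c'

/-- The contribution of the prime `p` at the scale `P`. -/
noncomputable def fq (Φ : ℕ → (ℕ → α) → ℝ) (P p : ℕ) (b : ℕ → α) (r : ℕ) : ℝ :=
  (1 / (P : ℝ)) * ∑ j ∈ range P,
    (((if p ∣ r + j then (p : ℝ) else 0) - 1) * Φ p (fun i => b (j + i)))

/-- The signed average over the primes in `(P, 2P]`. -/
noncomputable def FFG (Φ : ℕ → (ℕ → α) → ℝ) (P : ℕ) (σ : ℕ → ℝ) (b : ℕ → α) (r : ℕ) : ℝ :=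
  (1 / ((dyP P).card : ℝ)) * ∑ p ∈ dyP P, σ p * fq Φ P p b r

/-- The summand of the prime `p`. -/
noncomputable def gG (Φ : ℕ → (ℕ → α) → ℝ) (c : ℕ → α) (p n : ℕ) : ℝ :=
  ((if p ∣ n then (p : ℝ) else 0) - 1) * Φ p (fun i => c (n + i))

/-- The signed quantity at the scale `P`. -/
noncomputable def QQG (Φ : ℕ → (ℕ → α) → ℝ) (X P : ℕ) (σ : ℕ → ℝ) (c : ℕ → α) : ℝ :=
  (1 / ((dyP P).card : ℝ)) * ∑ p ∈ dyP P, σ p * ∑ n ∈ Icc 1 X, gG Φ c p n

/-- The quantity at the scale `P` with the absolute value inside the average over the primes. -/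
noncomputable def QAG (Φ : ℕ → (ℕ → α) → ℝ) (X P : ℕ) (c : ℕ → α) : ℝ :=
  (1 / ((dyP P).card : ℝ)) * ∑ p ∈ dyP P, |∑ n ∈ Icc 1 X, gG Φ c p n|

theorem mem_dyP {P p : ℕ} (hp : p ∈ dyP P) : P < p ∧ p ≤ 2 * P ∧ 0 < P ∧ 0 < p ∧ p.Prime := by
  unfold dyP at hp
  have h := Finset.mem_filter.1 hp
  have h2 := Finset.mem_Ioc.1 h.1
  exact ⟨h2.1, h2.2, by omega, by omega, h.2⟩

theorem fq_mod (Φ : ℕ → (ℕ → α) → ℝ) (P p : ℕ) (b : ℕ → α) (r : ℕ) :
    fq Φ P p b r = fq Φ P p b (r % p) := by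
  unfold fq
  congr 1
  apply Finset.sum_congr rfl
  intro j _
  have h : (p ∣ r + j) ↔ (p ∣ r % p + j) := by
    have h1 : r % p + j ≡ r + j [MOD p] := (Nat.mod_modEq r p).add_right j
    exact (h1.dvd_iff (dvd_refl p)).symm
  simp only [h]

private theorem card_one (p j : ℕ) (hp : 0 < p) :
    ((range p).filter (fun r => p ∣ r + j)).card = 1 := by
  have hr : ∃ r0 < p, p ∣ r0 + j := by
    rcases Nat.eq_zero_or_pos (j % p) with h | h
    · exact ⟨0, hp, by simpa using Nat.dvd_of_mod_eq_zero h⟩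
    · have h1 := Nat.mod_lt j hp
      refine ⟨p - j % p, by omega, ?_⟩
      have h2 := Nat.div_add_mod j p
      refine ⟨1 + j / p, ?_⟩
      rw [Nat.mul_add, Nat.mul_one]
      omega
  obtain ⟨r0, hr0, hd⟩ := hr
  rw [Finset.card_eq_one]
  refine ⟨r0, ?_⟩
  ext r
  rw [Finset.mem_filter, Finset.mem_range, Finset.mem_singleton]
  constructor
  · rintro ⟨h1, h2⟩
    have h3 : r + j ≡ r0 + j [MOD p] :=
      ((Nat.modEq_zero_iff_dvd).2 h2).trans ((Nat.modEq_zero_iff_dvd).2 hd).symm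
    exact (Nat.ModEq.add_right_cancel' j h3).eq_of_lt_of_lt h1 hr0
  · rintro rfl
    exact ⟨hr0, hd⟩

theorem fq_sum (Φ : ℕ → (ℕ → α) → ℝ) {P p : ℕ} (hp : p ∈ dyP P) (b : ℕ → α) :
    ∑ r ∈ range p, fq Φ P p b r = 0 := by
  obtain ⟨-, -, -, hp0, -⟩ := mem_dyP hp
  unfold fq
  rw [← Finset.mul_sum, Finset.sum_comm]
  have h : ∀ j ∈ range P, ∑ r ∈ range p,
      (((if p ∣ r + j then (p : ℝ) else 0) - 1) * Φ p (fun i => b (j + i))) = 0 := by
    intro j _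
    rw [← Finset.sum_mul, Finset.sum_sub_distrib, Finset.sum_const, Finset.card_range,
      ← Finset.sum_filter, Finset.sum_const, card_one p j hp0]
    simp
  rw [Finset.sum_eq_zero h, mul_zero]

private theorem card_le (P p r : ℕ) (hP : P < p) :
    ((range P).filter (fun j => p ∣ r + j)).card ≤ 1 := by
  rw [Finset.card_le_one]
  intro a ha b hb
  rw [Finset.mem_filter, Finset.mem_range] at ha hb
  have h3 : r + a ≡ r + b [MOD p] :=
    ((Nat.modEq_zero_iff_dvd).2 ha.2).trans ((Nat.modEq_zero_iff_dvd).2 hb.2).symm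
  exact (Nat.ModEq.add_left_cancel' r h3).eq_of_lt_of_lt (by omega) (by omega)

theorem fq_abs (Φ : ℕ → (ℕ → α) → ℝ) (hΦ : ∀ p c, |Φ p c| ≤ 1) {P p : ℕ} (hp : p ∈ dyP P)
    (b : ℕ → α) (r : ℕ) : |fq Φ P p b r| ≤ 3 := by
  obtain ⟨h1, h2, h3, h4, -⟩ := mem_dyP hp
  have hP : (0 : ℝ) < P := by exact_mod_cast h3
  have hpP : (p : ℝ) ≤ 2 * P := by exact_mod_cast h2
  unfold fq
  rw [abs_mul, abs_of_pos (by positivity : (0 : ℝ) < 1 / P), one_div_mul_eq_div, div_le_iff₀ hP]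
  calc |∑ j ∈ range P, (((if p ∣ r + j then (p : ℝ) else 0) - 1) * Φ p (fun i => b (j + i)))|
      ≤ ∑ j ∈ range P, |(((if p ∣ r + j then (p : ℝ) else 0) - 1) * Φ p (fun i => b (j + i)))| :=
        Finset.abs_sum_le_sum_abs _ _
    _ ≤ ∑ j ∈ range P, ((if p ∣ r + j then (p : ℝ) else 0) + 1) := by
        refine Finset.sum_le_sum fun j _ => ?_
        rw [abs_mul]
        have h5 : (0 : ℝ) ≤ (if p ∣ r + j then (p : ℝ) else 0) := by
          split_ifs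
          · exact Nat.cast_nonneg p
          · exact le_rfl
        have h6 : |(if p ∣ r + j then (p : ℝ) else 0) - 1| ≤ (if p ∣ r + j then (p : ℝ) else 0) + 1 := by
          rw [abs_le]
          constructor <;> linarith
        have h7 := mul_le_mul h6 (hΦ p (fun i => b (j + i))) (abs_nonneg _) (by linarith)
        linarith
    _ = (((range P).filter (fun j => p ∣ r + j)).card : ℝ) * p + P := by
        rw [Finset.sum_add_distrib, ← Finset.sum_filter, Finset.sum_const, Finset.sum_const,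
          nsmul_eq_mul, nsmul_eq_mul, Finset.card_range, mul_one]
    _ ≤ 1 * p + P := by
        have : (((range P).filter (fun j => p ∣ r + j)).card : ℝ) ≤ 1 := by
          exact_mod_cast card_le P p r h1
        have hp0 : (0 : ℝ) ≤ p := Nat.cast_nonneg p
        have := mul_le_mul_of_nonneg_right this hp0
        linarith
    _ ≤ 3 * P := by linarith

theorem fq_exp (Φ : ℕ → (ℕ → α) → ℝ) (hΦ : ∀ p c, |Φ p c| ≤ 1) {P p : ℕ} (hp : p ∈ dyP P)
    (b : ℕ → α) (s : ℝ) :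
    ∑ r ∈ range p, Real.exp (s * fq Φ P p b r) ≤ (p : ℝ) * Real.exp (9 / 2 * s ^ 2) := by
  have key : ∀ x : ℝ, |x| ≤ 3 → Real.exp (s * x) ≤
      Real.cosh (3 * s) + x * (Real.sinh (3 * s) / 3) := by
    intro x hx
    rw [abs_le] at hx
    have h := convexOn_exp.2 (Set.mem_univ (3 * s)) (Set.mem_univ (-(3 * s)))
      (show (0 : ℝ) ≤ (x + 3) / 6 by linarith) (show (0 : ℝ) ≤ (3 - x) / 6 by linarith) (by ring)
    have e1 : ((x + 3) / 6) • (3 * s) + ((3 - x) / 6) • (-(3 * s)) = s * x := by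
      simp only [smul_eq_mul]
      ring
    rw [e1] at h
    refine h.trans (le_of_eq ?_)
    rw [Real.cosh_eq, Real.sinh_eq, smul_eq_mul, smul_eq_mul]
    ring
  calc ∑ r ∈ range p, Real.exp (s * fq Φ P p b r)
      ≤ ∑ r ∈ range p, (Real.cosh (3 * s) + fq Φ P p b r * (Real.sinh (3 * s) / 3)) :=
        Finset.sum_le_sum fun r _ => key _ (fq_abs Φ hΦ hp b r)
    _ = (p : ℝ) * Real.cosh (3 * s) := by
        rw [Finset.sum_add_distrib, ← Finset.sum_mul, fq_sum Φ hp, Finset.sum_const,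
          Finset.card_range, nsmul_eq_mul, zero_mul, add_zero]
    _ ≤ (p : ℝ) * Real.exp (9 / 2 * s ^ 2) := by
        apply mul_le_mul_of_nonneg_left _ (by positivity)
        refine (Real.cosh_le_exp_half_sq _).trans (le_of_eq ?_)
        congr 1
        ring

theorem hoeff (Φ : ℕ → (ℕ → α) → ℝ) (hΦ : ∀ p c, |Φ p c| ≤ 1) (P : ℕ) (σ : ℕ → ℝ)
    (hσ : ∀ p, |σ p| ≤ 1) (b : ℕ → α) (t : ℝ) :
    ∑ r ∈ range (MP P), Real.exp (t * FFG Φ P σ b r) ≤
      (MP P : ℝ) * Real.exp (9 / 2 * t ^ 2 / ((dyP P).card : ℝ)) := by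
  set d : ℝ := ((dyP P).card : ℝ) with hd
  have hexp : ∀ r : ℕ, Real.exp (t * FFG Φ P σ b r) =
      ∏ p ∈ dyP P, Real.exp ((t / d * σ p) * fq Φ P p b (r % p)) := by
    intro r
    rw [← Real.exp_sum]
    congr 1
    unfold FFG
    have h1 : ∑ p ∈ dyP P, (t / d * σ p) * fq Φ P p b (r % p) =
        t / d * ∑ p ∈ dyP P, σ p * fq Φ P p b r := by
      rw [Finset.mul_sum]
      refine Finset.sum_congr rfl fun p _ => ?_
      rw [← fq_mod Φ P p b r]
      ring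
    rw [h1]
    ring
  have hprime : ∀ p ∈ dyP P, Nat.Prime p := fun p hp => (mem_dyP hp).2.2.2.2
  have h2 : ∑ r ∈ range (MP P), Real.exp (t * FFG Φ P σ b r) =
      ∏ p ∈ dyP P, ∑ s ∈ range p, Real.exp ((t / d * σ p) * fq Φ P p b s) := by
    rw [Finset.sum_congr rfl fun r _ => hexp r]
    exact crt (dyP P) hprime (fun p s => Real.exp ((t / d * σ p) * fq Φ P p b s))
  rw [h2]
  have h3 : ∏ p ∈ dyP P, ∑ s ∈ range p, Real.exp ((t / d * σ p) * fq Φ P p b s) ≤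
      ∏ p ∈ dyP P, ((p : ℝ) * Real.exp (9 / 2 * (t / d) ^ 2)) := by
    refine Finset.prod_le_prod ?_ ?_
    · intro p _
      exact Finset.sum_nonneg fun s _ => (Real.exp_pos _).le
    · intro p hp
      refine (fq_exp Φ hΦ hp b (t / d * σ p)).trans ?_
      refine mul_le_mul_of_nonneg_left (Real.exp_le_exp.2 ?_) (Nat.cast_nonneg _)
      have h4 : σ p ^ 2 ≤ 1 := by
        have := hσ p
        rw [abs_le] at this
        nlinarith [this.1, this.2]
      have h5 : 0 ≤ (t / d) ^ 2 := sq_nonneg _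
      have h6 : (t / d * σ p) ^ 2 = (t / d) ^ 2 * σ p ^ 2 := by ring
      rw [h6]
      nlinarith
  refine h3.trans (le_of_eq ?_)
  rw [Finset.prod_mul_distrib, Finset.prod_const, ← Real.exp_nat_mul]
  have h4 : (MP P : ℝ) = ∏ p ∈ dyP P, (p : ℝ) := by
    unfold MP
    push_cast
    rfl
  rw [h4]
  congr 2
  rw [← hd]
  by_cases h0 : d = 0
  · rw [h0]; simp
  · field_simp

theorem hoeff_fin (Φ : ℕ → (ℕ → α) → ℝ) (hΦ : ∀ p c, |Φ p c| ≤ 1) (P : ℕ) (σ : ℕ → ℝ)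
    (hσ : ∀ p, |σ p| ≤ 1) (b : ℕ → α) (t : ℝ) :
    ∑ r : Fin (MP P), Real.exp (t * FFG Φ P σ b (r : ℕ)) ≤
      Real.exp (9 / 2 * t ^ 2 / ((dyP P).card : ℝ)) * (Fintype.card (Fin (MP P)) : ℝ) := by
  rw [Fintype.card_fin, mul_comm]
  rw [Fin.sum_univ_eq_sum_range (fun r => Real.exp (t * FFG Φ P σ b r)) (MP P)]
  exact hoeff Φ hΦ P σ hσ b t

theorem gG_abs (Φ : ℕ → (ℕ → α) → ℝ) (hΦ : ∀ p c, |Φ p c| ≤ 1) {P p : ℕ} (hp : p ∈ dyP P)
    (c : ℕ → α) (m : ℕ) : |gG Φ c p m| ≤ 2 * (P : ℝ) := by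
  obtain ⟨h1, h2, h3, h4, -⟩ := mem_dyP hp
  have hP' : (1 : ℝ) ≤ P := by exact_mod_cast h3
  have hp2 : (p : ℝ) ≤ 2 * P := by exact_mod_cast h2
  have hp3 : (0 : ℝ) ≤ p := Nat.cast_nonneg p
  unfold gG
  rw [abs_mul]
  have h5 : |(if p ∣ m then (p : ℝ) else 0) - 1| ≤ 2 * P := by
    rw [abs_le]
    split_ifs
    · constructor <;> linarith
    · constructor <;> linarith
  calc |(if p ∣ m then (p : ℝ) else 0) - 1| * |Φ p (fun i => c (m + i))|
      ≤ (2 * P) * 1 := mul_le_mul h5 (hΦ _ _) (abs_nonneg _) (by linarith)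
    _ = 2 * P := mul_one _

theorem gG_fq [Inhabited α] (Φ : ℕ → (ℕ → α) → ℝ) (w : ℕ) (hloc : Loc w Φ) {P p : ℕ}
    (hp : p ∈ dyP P) (c : ℕ → α) (n : ℕ) :
    fq Φ P p (ext (wd c ((2 * w + 1) * P) n)) (n % MP P) =
      (1 / (P : ℝ)) * ∑ j ∈ range P, gG Φ c p (n + j) := by
  obtain ⟨hp1, hp2, hp3, hp4, -⟩ := mem_dyP hp
  unfold fq
  congr 1
  refine Finset.sum_congr rfl fun j hj => ?_
  rw [Finset.mem_range] at hj
  have hdvd : p ∣ MP P := by
    unfold MP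
    exact Finset.dvd_prod_of_mem (fun p => p) hp
  have h1 : (p ∣ n % MP P + j) ↔ (p ∣ n + j) := by
    have h2 : n % MP P + j ≡ n + j [MOD p] :=
      Nat.ModEq.add_right j ((Nat.mod_modEq n (MP P)).of_dvd hdvd)
    exact h2.dvd_iff dvd_rfl
  have h2 : Φ p (fun i => ext (wd c ((2 * w + 1) * P) n) (j + i)) = Φ p (fun i => c (n + j + i)) := by
    refine hloc p _ _ fun i hi => ?_
    have h3 : j + i < (2 * w + 1) * P := by
      have h4 : w * p ≤ w * (2 * P) := Nat.mul_le_mul_left _ hp2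
      have h5 : (2 * w + 1) * P = w * (2 * P) + P := by ring
      omega
    unfold ext
    rw [dif_pos h3]
    unfold wd
    simp only
    congr 1
    omega
  rw [h2]
  unfold gG
  simp only [h1]

theorem meanQ [Inhabited α] (Φ : ℕ → (ℕ → α) → ℝ) (hΦ : ∀ p c, |Φ p c| ≤ 1) (w : ℕ) (hloc : Loc w Φ)
    (P X : ℕ) (hP : 1 ≤ P) (σ : ℕ → ℝ) (hσ : ∀ p, |σ p| ≤ 1) (c : ℕ → α) :
    |QQG Φ X P σ c - ∑ n ∈ Icc 1 X, FFG Φ P σ (ext (wd c ((2 * w + 1) * P) n)) (n % MP P)| ≤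
      4 * (P : ℝ) ^ 2 := by
  have hP0 : (0 : ℝ) < P := by exact_mod_cast hP
  set d : ℝ := ((dyP P).card : ℝ) with hd
  have hd0 : 0 ≤ d := Nat.cast_nonneg _
  have hQ : QQG Φ X P σ c = (1 / d) * ∑ p ∈ dyP P, σ p * ((1 / (P : ℝ)) * ∑ j ∈ range P,
      ∑ n ∈ Icc 1 X, gG Φ c p n) := by
    unfold QQG
    congr 1
    refine Finset.sum_congr rfl fun p _ => ?_
    rw [Finset.sum_const, Finset.card_range, nsmul_eq_mul, ← mul_assoc (1 / (P : ℝ)),
      one_div_mul_cancel hP0.ne', one_mul]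
  have hM : ∑ n ∈ Icc 1 X, FFG Φ P σ (ext (wd c ((2 * w + 1) * P) n)) (n % MP P) =
      (1 / d) * ∑ p ∈ dyP P, σ p * ((1 / (P : ℝ)) * ∑ j ∈ range P,
      ∑ n ∈ Icc 1 X, gG Φ c p (n + j)) := by
    have h1 : ∀ n ∈ Icc 1 X, FFG Φ P σ (ext (wd c ((2 * w + 1) * P) n)) (n % MP P) =
        (1 / d) * ∑ p ∈ dyP P, σ p * ((1 / (P : ℝ)) * ∑ j ∈ range P, gG Φ c p (n + j)) := by
      intro n _
      unfold FFG
      congr 1
      exact Finset.sum_congr rfl fun p hp => by rw [gG_fq Φ w hloc hp c n]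
    rw [Finset.sum_congr rfl h1, ← Finset.mul_sum, Finset.sum_comm]
    congr 1
    refine Finset.sum_congr rfl fun p _ => ?_
    rw [← Finset.mul_sum, ← Finset.mul_sum, Finset.sum_comm]
  rw [hQ, hM, ← mul_sub, ← Finset.sum_sub_distrib]
  have hterm : ∀ p ∈ dyP P, |σ p * ((1 / (P : ℝ)) * ∑ j ∈ range P,
      ∑ n ∈ Icc 1 X, gG Φ c p n) - σ p * ((1 / (P : ℝ)) * ∑ j ∈ range P,
      ∑ n ∈ Icc 1 X, gG Φ c p (n + j))| ≤ 4 * (P : ℝ) ^ 2 := by
    intro p hp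
    rw [← mul_sub, ← mul_sub, ← Finset.sum_sub_distrib, abs_mul, abs_mul]
    have h2 : |∑ j ∈ range P, ((∑ n ∈ Icc 1 X, gG Φ c p n) -
        ∑ n ∈ Icc 1 X, gG Φ c p (n + j))| ≤ ∑ j ∈ range P, 4 * (P : ℝ) ^ 2 := by
      refine (Finset.abs_sum_le_sum_abs _ _).trans (Finset.sum_le_sum fun j hj => ?_)
      rw [Finset.mem_range] at hj
      have h3 := shift_abs (gG Φ c p) (2 * P) (gG_abs Φ hΦ hp c) j X
      simp only [one_mul] at h3
      rw [abs_sub_comm] at h3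
      refine h3.trans ?_
      have hj' : (j : ℝ) ≤ P := by exact_mod_cast hj.le
      nlinarith
    rw [Finset.sum_const, Finset.card_range, nsmul_eq_mul] at h2
    have h4 : |1 / (P : ℝ)| = 1 / (P : ℝ) := abs_of_pos (by positivity)
    rw [h4]
    have h5 : (1 / (P : ℝ)) * |∑ j ∈ range P, ((∑ n ∈ Icc 1 X, gG Φ c p n) -
        ∑ n ∈ Icc 1 X, gG Φ c p (n + j))| ≤ 4 * (P : ℝ) ^ 2 := by
      calc (1 / (P : ℝ)) * _ ≤ (1 / (P : ℝ)) * ((P : ℝ) * (4 * (P : ℝ) ^ 2)) :=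
            mul_le_mul_of_nonneg_left h2 (by positivity)
        _ = 4 * (P : ℝ) ^ 2 := by field_simp
    refine (mul_le_mul (hσ p) h5 (by positivity) zero_le_one).trans (le_of_eq (one_mul _))
  rw [abs_mul]
  have h5 : |∑ p ∈ dyP P, (σ p * ((1 / (P : ℝ)) * ∑ j ∈ range P,
      ∑ n ∈ Icc 1 X, gG Φ c p n) - σ p * ((1 / (P : ℝ)) * ∑ j ∈ range P,
      ∑ n ∈ Icc 1 X, gG Φ c p (n + j)))| ≤ d * (4 * (P : ℝ) ^ 2) := by
    refine (Finset.abs_sum_le_sum_abs _ _).trans ((Finset.sum_le_sum hterm).trans (le_of_eq ?_))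
    rw [Finset.sum_const, nsmul_eq_mul]
  have h6 : |1 / d| = 1 / d := abs_of_nonneg (by positivity)
  rw [h6]
  refine (mul_le_mul_of_nonneg_left h5 (by positivity)).trans ?_
  by_cases h0 : d = 0
  · rw [h0]; simp
  · rw [← mul_assoc, one_div_mul_cancel h0, one_mul]

theorem exists_sign (Φ : ℕ → (ℕ → α) → ℝ) (P X : ℕ) (c : ℕ → α) :
    ∃ σ : ℕ → ℝ, (∀ p, |σ p| ≤ 1) ∧ QQG Φ X P σ c = QAG Φ X P c := by
  classical
  refine ⟨fun p => if 0 ≤ ∑ n ∈ Icc 1 X, gG Φ c p n then 1 else -1,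
    fun p => by beta_reduce; split_ifs <;> simp, ?_⟩
  unfold QQG QAG
  congr 1
  refine Finset.sum_congr rfl fun p _ => ?_
  beta_reduce
  split_ifs with h
  · rw [one_mul, abs_of_nonneg h]
  · rw [abs_of_neg (not_le.1 h)]; ring

end UGA
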